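import Pool.Agent.Run7.h303.RT.Roots

/-!
# The roots of an arbitrary point

For pairwise coprime `p, q, r` and all points `x` of the circle, the solutions `y` of `r ^ h y = x`
which are not nearly equidistributed along a nearly invariant window of pairs of exponents lie in a
bounded number of cosets of a fixed finite group, uniformly in `h`, in `x` and in the window.
-/

set_option autoImplicit false

namespace Pool.Agent.Results.MP_96e181_an.EquidistributedRoots

open Run7.h303.RT

/-- **Equidistribution of the roots of all points.** Let `p, q, r ≥ 2` be pairwise coprime and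
`t > 0`. There is `h₀` such that for all `h` there is `η > 0` such that for all finite nonempty sets
`U` of pairs of exponents, nearly invariant up to `η` under both translations, and for ALL points `x`
of the circle: the solutions `y` of `r ^ h y = x` such that the points `p ^ i q ^ j y`, `(i, j) ∈ U`,
have discrepancy greater than `t` lie in at most `1 / t` cosets of the finite group of the points
killed by `r ^ h₀`. -/
theorem result (p q r : ℕ) (hp : 2 ≤ p) (hq : 2 ≤ q) (hr : 2 ≤ r) (hpq : Nat.Coprime p q)
    (hrp : Nat.Coprime r p) (hrq : Nat.Coprime r q) (t : ℝ) (ht : 0 < t) :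
    ∃ h0 : ℕ, ∀ h : ℕ, ∃ η : ℝ, 0 < η ∧ ∀ U : Finset (ℕ × ℕ), U.Nonempty →
      NearlyInvariant U η → ∀ x : UnitAddCircle, ∃ S : Finset UnitAddCircle,
        (S.card : ℝ) ≤ 1 / t ∧ ∀ y : UnitAddCircle, r ^ h • y = x → ¬ DiscLe p q U t y →
          ∃ s ∈ S, r ^ h0 • (y - s) = 0 :=
  roots hp hq hpq hr hrp hrq ht

end Pool.Agent.Results.MP_96e181_an.EquidistributedRoots
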