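import Pool.Agent.Run7.h303.WS.Info

/-!
# Rudolph's theorem at almost every point of an arbitrary measure

For coprime `p, q` and every probability measure on the circle, invariant or not, only the scales at
which the orbit of `x` under `x ↦ p x`, `x ↦ q x` is nearly equidistributed contribute to the decay of
the mass of the small arcs about `x`.
-/

set_option autoImplicit false

open MeasureTheory Filter

namespace Pool.Agent.Results.MP_96e181_an.OnlyGoodScales

open Run7.h303.WS

open Classical in
/-- **Only the good scales make the arcs small.** Let `p, q ≥ 2` be coprime and `ε > 0`. For all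
large integers `H`, all Borel probability measures `ν` and `ρ` on the circle (not assumed to be
invariant) and `ν`-almost every `x`, one has for all large `n`
`ν (I_n (x)) ≥ H ^ (- ε n) * ∏ ρ (I_k (x)) / ρ (I_(k - 1) (x))`, the product over the good scales
`1 ≤ k ≤ n` of `x`: those for which every closed arc `J` is visited by the points `m x`,
`m = p ^ i q ^ j`, `H ^ k ≤ m < H ^ (k + 1)`, with a frequency within `ε` of `|J|`; here `I_k (x)` is
the `H`-adic arc of length `H ^ (-k)` which contains `x`.
For `ρ` the Lebesgue measure: `ν (I_n (x)) ≥ H ^ (- ε n - g)`, `g` the number of the good scales.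
For `ρ = ν`: the product of the conditional masses over the BAD scales is at least
`H ^ (- ε n)`. -/
theorem result (p q : ℕ) (hp : 2 ≤ p) (hq : 2 ≤ q) (hpq : Nat.Coprime p q) (ε : ℝ) (hε : 0 < ε) :
    ∃ H0 : ℕ, ∀ H : ℕ, H0 ≤ H → ∀ ν ρ : Measure UnitAddCircle, IsProbabilityMeasure ν →
      IsProbabilityMeasure ρ → ∀ᵐ x ∂ν, ∀ᶠ n : ℕ in atTop,
        (H : ℝ) ^ (-(ε * n)) * ∏ k ∈ (Finset.Icc 1 n).filter (fun k => GoodScale p q ε H k x),
          (ρ.real (arc H k x) / ρ.real (arc H (k - 1) x)) ≤ ν.real (arc H n x) :=
  arcs_mass hp hq hpq hε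

end Pool.Agent.Results.MP_96e181_an.OnlyGoodScales
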