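import Pool.Agent.Run7.h303.TE.More
import Pool.Agent.Run7.h303.TE.Rat

/-!
# Roots of the totally ergodic measures invariant under `×p` and `×q`

Write `T_n` for the map `x ↦ n x` of the circle and for its action on measures. A measure is totally
ergodic for `p, q` if it is invariant under `T_p` and `T_q` and jointly ergodic for `T_p ^ k`,
`T_q ^ k`, for every `k ≥ 1`. If `n` is prime to `p`, `q` and `p - 1` then `T_n` is a bijection of the
set of the totally ergodic measures onto itself; for `p = 2`, `q = 3` this holds for all `n ≥ 1`, so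
the positive rational numbers act on the totally ergodic measures.
-/

set_option autoImplicit false

open MeasureTheory Filter Topology

namespace Pool.Agent.Results.MP_96e181_an.TotallyErgodicRoots

/-- A probability measure invariant under `×p` and `×q`. -/
def Invariant (p q : ℕ) (μ : Measure UnitAddCircle) : Prop :=
  IsProbabilityMeasure μ ∧ MeasurePreserving (fun x : UnitAddCircle => p • x) μ μ ∧
    MeasurePreserving (fun x : UnitAddCircle => q • x) μ μ

/-- Joint ergodicity for `×a` and `×b`: the sets `E` with `T_a⁻¹ E = E = T_b⁻¹ E` have measure `0`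
or `1`. -/
def JointlyErgodic (a b : ℕ) (μ : Measure UnitAddCircle) : Prop :=
  ∀ E : Set UnitAddCircle, MeasurableSet E → (fun x : UnitAddCircle => a • x) ⁻¹' E = E →
    (fun x : UnitAddCircle => b • x) ⁻¹' E = E → μ E = 0 ∨ μ E = 1

/-- Total ergodicity. -/
def TotallyErgodic (p q : ℕ) (μ : Measure UnitAddCircle) : Prop :=
  Invariant p q μ ∧ ∀ k : ℕ, 1 ≤ k → JointlyErgodic (p ^ k) (q ^ k) μ

/-- The image of `μ` under `x ↦ n x`. -/
noncomputable def image (n : ℕ) (μ : Measure UnitAddCircle) : Measure UnitAddCircle :=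
  μ.map fun x => n • x

/-- The `m`-th Fourier coefficient. -/
noncomputable def coeff (μ : Measure UnitAddCircle) (m : ℤ) : ℂ := ∫ x, (fourier m x : ℂ) ∂μ

/-- `K ^ (-2) ∑_{i, j < K} e (m p ^ i q ^ j k / n)`. -/
noncomputable def orbitSum (p q n K k : ℕ) (m : ℤ) : ℂ :=
  ((K : ℂ) ^ 2)⁻¹ * ∑ i ∈ Finset.range K, ∑ j ∈ Finset.range K,
    Complex.exp (2 * Real.pi * Complex.I * (m * (p ^ i * q ^ j * k) / n))

/-- **Roots of totally ergodic measures.**

(1) `T_n μ` is totally ergodic if `μ` is. Let `n` be prime to `p`, `q` and `p - 1`. For every totally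
ergodic `μ` there is exactly one totally ergodic `ν` with `T_n ν = μ`.

(2) Let `ν` be totally ergodic, `n | p ^ K - 1`, `n | q ^ K - 1`, `K ≥ 1`. There are a divisor `n'`
of `n` and invariant jointly ergodic measures `ν_k`, `k ≥ 0`, with the coefficients
`coeff ν m * K ^ (-2) ∑_{i, j < K} e (m p ^ i q ^ j k / n)`, such that the `ν_k` are all the invariant
jointly ergodic `ν'` with `T_n ν' = T_n ν`, and `ν_k = ν_l` if and only if `k = p ^ i q ^ j l`
modulo `n'` for some `i, j`.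

(3) For all `n ≥ 1` and all `μ` totally ergodic for `2, 3` there is exactly one `ν` totally ergodic
for `2, 3` with `T_n ν = μ`.

(4) For every `μ` totally ergodic for `2, 3` there is exactly one function `F` on the rational numbers
with `F m = coeff μ m` for all integers `m`, such that for every `n ≥ 1` the numbers `F (m / n)` are
the coefficients of a totally ergodic measure. -/
theorem result :
    (∀ (p q n : ℕ) (μ : Measure UnitAddCircle), TotallyErgodic p q μ →
      TotallyErgodic p q (image n μ)) ∧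
    (∀ p q n : ℕ, 1 ≤ p → n ≠ 0 → Nat.Coprime p n → Nat.Coprime q n → Nat.Coprime (p - 1) n →
      ∀ μ : Measure UnitAddCircle, TotallyErgodic p q μ →
        ∃! ν : Measure UnitAddCircle, TotallyErgodic p q ν ∧ image n ν = μ) ∧
    (∀ p q n K : ℕ, n ≠ 0 → 1 ≤ K → p ^ K ≡ 1 [MOD n] → q ^ K ≡ 1 [MOD n] →
      ∀ ν : Measure UnitAddCircle, TotallyErgodic p q ν →
        ∃ (n' : ℕ) (lift : ℕ → Measure UnitAddCircle), n' ∣ n ∧
          (∀ k, Invariant p q (lift k) ∧ JointlyErgodic p q (lift k) ∧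
            image n (lift k) = image n ν ∧
            ∀ m : ℤ, coeff (lift k) m = coeff ν m * orbitSum p q n K k m) ∧
          (∀ ν' : Measure UnitAddCircle, Invariant p q ν' → JointlyErgodic p q ν' →
            image n ν' = image n ν → ∃ k, ν' = lift k) ∧
          ∀ k l, lift k = lift l ↔ ∃ i j : ℕ, k ≡ p ^ i * q ^ j * l [MOD n']) ∧
    (∀ n : ℕ, n ≠ 0 → ∀ μ : Measure UnitAddCircle, TotallyErgodic 2 3 μ →
      ∃! ν : Measure UnitAddCircle, TotallyErgodic 2 3 ν ∧ image n ν = μ) ∧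
    (∀ μ : Measure UnitAddCircle, TotallyErgodic 2 3 μ →
      ∃! F : ℚ → ℂ, (∀ m : ℤ, F m = coeff μ m) ∧ ∀ n : ℕ, n ≠ 0 →
        ∃ ν : Measure UnitAddCircle, TotallyErgodic 2 3 ν ∧
          ∀ m : ℤ, F ((m : ℚ) / n) = coeff ν m) := by
  have toT : ∀ {p q : ℕ} {μ : Measure UnitAddCircle}, TotallyErgodic p q μ →
      Run7.h303.TE.TErg p q μ := fun h => ⟨h.1.1, h.1.2.1, h.1.2.2, h.2⟩
  have ofT : ∀ {p q : ℕ} {μ : Measure UnitAddCircle}, Run7.h303.TE.TErg p q μ →
      TotallyErgodic p q μ := fun h => ⟨⟨h.prob, h.mpp, h.mpq⟩, h.erg⟩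
  refine ⟨fun p q n μ hμ => ofT ((toT hμ).map n), fun p q n hp hn hpn hqn hc μ hμ => ?_, fun p q n K hn hK hpK hqK ν hν => ?_,
    fun n hn μ hμ => ?_, fun μ hμ => ?_⟩
  · obtain ⟨ν, ⟨h1, h2⟩, h3⟩ := Run7.h303.TE.exists_unique_root hn hp hc hpn hqn (toT hμ)
    exact ⟨ν, ⟨ofT h1, h2⟩, fun ν' h => h3 ν' (toT h.1) h.2⟩
  · have hT := toT hν
    haveI := hT.prob
    obtain ⟨n', hn', hd, hper⟩ := Run7.h303.TE.exists_period hn ν
    refine ⟨n', fun k => Run7.h303.TE.oav n p q K k ν, hd, fun k => ?_, fun ν' h1 h2 h3 => ?_,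
      fun k l => ?_⟩
    · obtain ⟨g1, g2⟩ := Run7.h303.TE.oav_root (h := k) hn hK hpK hqK hT
      refine ⟨⟨g1.prob, g1.mpa, g1.mpb⟩, g1.erg, g2, fun m => ?_⟩
      have e := Run7.h303.TE.hat_oav (n := n) (p := p) (q := q) (K := K) (h := k) (ν := ν) m
      rw [Run7.h303.TE.chi_exp] at e
      exact e
    · obtain ⟨k, -, hk⟩ := Run7.h303.TE.root_eq_oav hn hK hpK hqK hT
        ⟨h1.1, h1.2.1, h1.2.2, h2⟩ h3
      exact ⟨k, hk⟩
    · rw [Run7.h303.TE.oav_eq_iff hn hK hpK hqK hT]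
      simp only [hper]
  · obtain ⟨ν, ⟨h1, h2⟩, h3⟩ := Run7.h303.TE.bij hn (toT hμ)
    exact ⟨ν, ⟨ofT h1, h2⟩, fun ν' h => h3 ν' (toT h.1) h.2⟩
  · obtain ⟨F, ⟨h1, h2⟩, h3⟩ := Run7.h303.TE.exists_unique_ext (toT hμ)
    refine ⟨F, ⟨h1, fun n hn => ?_⟩, fun F' h => h3 F' h.1 fun n hn => ?_⟩
    · obtain ⟨ν, e1, e2⟩ := h2 n hn
      exact ⟨ν, ofT e1, e2⟩
    · obtain ⟨ν, e1, e2⟩ := h.2 n hn
      exact ⟨ν, toT e1, e2⟩

end Pool.Agent.Results.MP_96e181_an.TotallyErgodicRoots
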