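import Pool.Agent.Run7.h303.TE.Pair

/-!
# Translates of the totally ergodic counterexamples to Furstenberg's conjecture

Write `T_n` for the map `x ↦ n x` of the circle and for its action on measures. A measure is totally
ergodic for `p, q` if it is invariant under `T_p` and `T_q` and jointly ergodic for `T_p ^ k`,
`T_q ^ k`, for every `k ≥ 1`. Let `p, q ≥ 2` be coprime. A translate of one totally ergodic measure
is equal or singular to any other totally ergodic measure which is not Lebesgue measure. For a totally
ergodic measure which is not Lebesgue measure the translates fixing it are those by the multiples of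
`1 / N`, for some `N ≥ 1`, and `T_n` is injective on a set of full measure exactly for the `n` prime to
`N`.
-/

set_option autoImplicit false

open MeasureTheory Filter Topology

namespace Pool.Agent.Results.MP_96e181_an.TranslatesOfCounterexamples

/-- A probability measure invariant under `×p` and `×q`. -/
def Invariant (p q : ℕ) (μ : Measure UnitAddCircle) : Prop :=
  IsProbabilityMeasure μ ∧ MeasurePreserving (fun x : UnitAddCircle => p • x) μ μ ∧
    MeasurePreserving (fun x : UnitAddCircle => q • x) μ μ

/-- Joint ergodicity for `×a` and `×b`: the sets `E` with `T_a⁻¹ E = E = T_b⁻¹ E` have measure `0`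
or `1`. -/
def JointlyErgodic (a b : ℕ) (μ : Measure UnitAddCircle) : Prop :=
  ∀ E : Set UnitAddCircle, MeasurableSet E → (fun x : UnitAddCircle => a • x) ⁻¹' E = E →
    (fun x : UnitAddCircle => b • x) ⁻¹' E = E → μ E = 0 ∨ μ E = 1

/-- Total ergodicity. -/
def TotallyErgodic (p q : ℕ) (μ : Measure UnitAddCircle) : Prop :=
  Invariant p q μ ∧ ∀ k : ℕ, 1 ≤ k → JointlyErgodic (p ^ k) (q ^ k) μ

/-- The image of `μ` under `x ↦ n x`. -/
noncomputable def image (n : ℕ) (μ : Measure UnitAddCircle) : Measure UnitAddCircle :=
  μ.map fun x => n • x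

/-- The translate of `μ` by `θ`. -/
noncomputable def translate (θ : UnitAddCircle) (μ : Measure UnitAddCircle) :
    Measure UnitAddCircle :=
  μ.map fun x => x + θ

/-- `x ↦ n x` is injective on a Borel set of full measure. -/
def InjectiveAE (n : ℕ) (μ : Measure UnitAddCircle) : Prop :=
  ∃ B : Set UnitAddCircle, MeasurableSet B ∧ μ Bᶜ = 0 ∧ Set.InjOn (fun x : UnitAddCircle => n • x) B

/-- **Translates of totally ergodic measures.** Let `p, q ≥ 2` be coprime.

(1) Let `μ, ν` be totally ergodic measures for `p, q`, not both equal to Lebesgue measure. For every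
point `θ` of the circle, the translate of `μ` by `θ` is equal to `ν` or singular to `ν`.

(2) Let `μ` be totally ergodic and not Lebesgue measure. There is an `N ≥ 1` such that the translate of
`μ` by `θ` is `μ` exactly if `N θ = 0`; for `n ≥ 1`, `T_n` is injective on a Borel set of full
`μ`-measure exactly if `n` and `N` are coprime; in particular `p q` is prime to `N`. The image `T_N μ`
is totally ergodic, not Lebesgue measure, singular to all its translates by `θ ≠ 0`, and all the
`T_n`, `n ≥ 1`, are injective on Borel sets of full measure for it. -/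
theorem result : ∀ p q : ℕ, 2 ≤ p → 2 ≤ q → Nat.Coprime p q →
    (∀ μ ν : Measure UnitAddCircle, TotallyErgodic p q μ → TotallyErgodic p q ν →
      ¬ (μ = volume ∧ ν = volume) →
        ∀ θ : UnitAddCircle, translate θ μ = ν ∨ translate θ μ ⟂ₘ ν) ∧
    (∀ μ : Measure UnitAddCircle, TotallyErgodic p q μ → μ ≠ volume →
      ∃ N : ℕ, 1 ≤ N ∧ Nat.Coprime (p * q) N ∧
        (∀ θ : UnitAddCircle, translate θ μ = μ ↔ N • θ = 0) ∧
        (∀ n : ℕ, 1 ≤ n → (InjectiveAE n μ ↔ Nat.Coprime n N)) ∧
        TotallyErgodic p q (image N μ) ∧ image N μ ≠ volume ∧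
        (∀ θ : UnitAddCircle, θ ≠ 0 → translate θ (image N μ) ⟂ₘ image N μ) ∧
        ∀ n : ℕ, 1 ≤ n → InjectiveAE n (image N μ)) := by
  have toT : ∀ {p q : ℕ} {μ : Measure UnitAddCircle}, TotallyErgodic p q μ →
      Run7.h303.TE.TErg p q μ := fun h => ⟨h.1.1, h.1.2.1, h.1.2.2, h.2⟩
  have ofT : ∀ {p q : ℕ} {μ : Measure UnitAddCircle}, Run7.h303.TE.TErg p q μ →
      TotallyErgodic p q μ := fun h => ⟨⟨h.prob, h.mpp, h.mpq⟩, h.erg⟩
  intro p q hp hq hpq
  refine ⟨fun μ ν hμ hν hne θ => ?_, fun μ hμ hne => ?_⟩
  · by_cases hν' : ν = volume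
    · have hμ' : μ ≠ volume := fun h => hne ⟨h, hν'⟩
      rcases Run7.h303.TE.pair_dich hp hq hpq (toT hν) (toT hμ) hμ' (-θ) with h | h
      · left
        have e : Run7.h303.TE.shift θ (Run7.h303.TE.shift (-θ) ν) =
            Run7.h303.TE.shift θ μ := by rw [h]
        rw [Run7.h303.TE.shift_shift, neg_add_cancel] at e
        have e0 : Run7.h303.TE.shift 0 ν = ν := by
          unfold Run7.h303.TE.shift
          simp
        rw [e0] at e
        exact e.symm
      · right
        obtain ⟨s, hs, h1, h2⟩ := h
        have hm : Measurable fun x : UnitAddCircle => x + -θ := by fun_prop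
        have hm' : Measurable fun x : UnitAddCircle => x + θ := by fun_prop
        refine ⟨((fun x : UnitAddCircle => x + -θ) ⁻¹' s)ᶜ, (hm hs).compl, ?_, ?_⟩
        · unfold translate
          rw [Measure.map_apply hm' (hm hs).compl]
          have e : (fun x : UnitAddCircle => x + θ) ⁻¹'
              ((fun x : UnitAddCircle => x + -θ) ⁻¹' s)ᶜ = sᶜ := by
            ext x
            simp
          rw [e]
          exact h2
        · rw [compl_compl]
          unfold Run7.h303.TE.shift at h1
          rwa [Measure.map_apply hm hs] at h1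
    · exact Run7.h303.TE.pair_dich hp hq hpq (toT hμ) (toT hν) hν' θ
  · have h := toT hμ
    haveI := h.prob
    obtain ⟨N, hN, hs⟩ := Run7.h303.TE.exists_stab hne
    have hi := fun {n : ℕ} (hn : n ≠ 0) => Run7.h303.TE.inj_iff hp hq hpq h hne hN hs hn
    obtain ⟨hne', htr⟩ := Run7.h303.TE.aperiodic hp hq hpq h hne hN hs
    have h' := h.map N
    haveI := h'.prob
    have hp0 : p ≠ 0 := by omega
    have hq0 : q ≠ 0 := by omega
    have hs' : ∀ θ : UnitAddCircle, Run7.h303.TE.shift θ (image N μ) = image N μ ↔
        1 • θ = 0 := fun θ => by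
      rw [one_smul]
      refine ⟨htr θ, ?_⟩
      rintro rfl
      unfold Run7.h303.TE.shift
      simp
    refine ⟨N, Nat.pos_of_ne_zero hN, ?_, hs, fun n hn => hi (by omega), ofT h', hne',
      fun θ hθ => ?_, fun n hn => ?_⟩
    · exact ((hi hp0).1 (Run7.h303.TE.inj_p hp hq hpq h hne)).mul_left
        ((hi hq0).1 (Run7.h303.TE.inj_q hp hq hpq h hne))
    · exact (Run7.h303.TE.shift_dich hp hq hpq h' hne' θ).resolve_left fun h1 => hθ (htr θ h1)
    · exact (Run7.h303.TE.inj_iff hp hq hpq h' hne' one_ne_zero hs' (by omega)).2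
        (Nat.coprime_one_right n)

end Pool.Agent.Results.MP_96e181_an.TranslatesOfCounterexamples
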